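import Pool.Agent.Lib.MP_b89832_lc.Sets

set_option autoImplicit false

/-!
The choice of the parameters and the asymptotics.
-/

namespace Pool.Agent.Lib.MP_b89832_lc

open Finset

theorem choose_lower (r s : ℕ) (hs : 1 ≤ s) (h : 2 * s ≤ r) :
    ((r : ℝ) / (2 * s)) ^ s ≤ r.choose s := by
  have h1 := Nat.pow_le_choose (α := ℝ) s r
  have hs0 : (0 : ℝ) < s := by exact_mod_cast hs
  have h2 : ((s.factorial : ℕ) : ℝ) ≤ (s : ℝ) ^ s := by exact_mod_cast Nat.factorial_le_pow s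
  have h3 : (r : ℝ) / 2 ≤ ((r + 1 - s : ℕ) : ℝ) := by
    rw [div_le_iff₀ (by norm_num)]
    have : r ≤ (r + 1 - s) * 2 := by omega
    exact_mod_cast this
  have h4 : ((r : ℝ) / (2 * s)) ^ s = ((r : ℝ) / 2) ^ s / (s : ℝ) ^ s := by
    rw [← div_pow]; congr 1; field_simp
  rw [h4]
  have h5 : (0 : ℝ) < s.factorial := by exact_mod_cast Nat.factorial_pos s
  calc ((r : ℝ) / 2) ^ s / (s : ℝ) ^ s ≤ ((r + 1 - s : ℕ) : ℝ) ^ s / (s.factorial : ℝ) := by
        apply div_le_div₀ (by positivity) _ h5 h2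
        exact pow_le_pow_left₀ (by positivity) h3 s
    _ ≤ r.choose s := by exact_mod_cast h1

theorem choose_upper (r b : ℕ) (hb : 1 ≤ b) (h : b ≤ r) :
    (r.choose (b - 1) : ℝ) ≤ (r / b * Real.exp 1) ^ b := by
  have hb0 : (0 : ℝ) < b := by exact_mod_cast hb
  have hr0 : (0 : ℝ) < r := by exact_mod_cast (by omega : 0 < r)
  obtain ⟨c, rfl⟩ : ∃ c, b = c + 1 := ⟨b - 1, by omega⟩
  have h1 := Nat.choose_le_pow_div (α := ℝ) c r
  have h2 := Real.pow_div_factorial_le_exp ((c + 1 : ℕ) : ℝ) (by positivity) (c + 1)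
  have h3 : Real.exp ((c + 1 : ℕ) : ℝ) = Real.exp 1 ^ (c + 1) := by
    rw [← Real.exp_nat_mul]; simp
  rw [h3] at h2
  have h4 : (0 : ℝ) < ((c + 1).factorial : ℕ) := by exact_mod_cast Nat.factorial_pos _
  have h5 : (0 : ℝ) < (c.factorial : ℕ) := by exact_mod_cast Nat.factorial_pos _
  rw [Nat.add_sub_cancel]
  refine h1.trans ?_
  rw [mul_pow, div_pow]
  have h6 : (r : ℝ) ^ c / (c.factorial : ℕ) ≤ (r : ℝ) ^ (c + 1) / ((c + 1).factorial : ℕ) := by
    rw [div_le_div_iff₀ h5 h4, Nat.factorial_succ, pow_succ]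
    have h7 : ((c + 1 : ℕ) : ℝ) ≤ r := by exact_mod_cast h
    push_cast at h7 ⊢
    have h8 : (0 : ℝ) ≤ (r : ℝ) ^ c * (c.factorial : ℕ) := by positivity
    nlinarith
  refine h6.trans ?_
  have h7 : (0 : ℝ) < ((c + 1 : ℕ) : ℝ) ^ (c + 1) := by positivity
  calc (r : ℝ) ^ (c + 1) / ((c + 1).factorial : ℕ) =
      (r : ℝ) ^ (c + 1) / ((c + 1 : ℕ) : ℝ) ^ (c + 1) *
        (((c + 1 : ℕ) : ℝ) ^ (c + 1) / ((c + 1).factorial : ℕ)) := by field_simp
    _ ≤ _ := mul_le_mul_of_nonneg_left h2 (by positivity)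

/-- the total number of coordinates for `r = λ 2^β` -/
def phi (d lam β : ℕ) : ℕ := (lam * 2 ^ β).choose (2 ^ β * (d + 1) - 1) + lam * 2 ^ β

theorem params (d lam β₀ n : ℕ) (hd : 1 ≤ d) (hlam : 4 * (d + 1) ≤ lam)
    (hn : phi d lam β₀ ≤ n) : ∃ β r s : ℕ, β₀ ≤ β ∧ s + 1 = 2 ^ β * (d + 1) ∧ lam * 2 ^ β ≤ r ∧
      r.choose s + r ≤ n ∧ n ≤ 3 * r.choose s ∧ r ≤ (d + 1) * 2 ^ (4 * lam + 1) * 2 ^ β ∧
      2 ^ (2 ^ β) ≤ n := by
  classical
  have hlt : ∀ β : ℕ, phi d lam β ≤ n → β + 1 ≤ n := by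
    intro β hβ
    have h1 : β < 2 ^ β := Nat.lt_two_pow_self
    have h2 : 1 * 2 ^ β ≤ lam * 2 ^ β := Nat.mul_le_mul_right _ (by omega)
    unfold phi at hβ
    omega
  obtain ⟨β, hβ⟩ : ∃ β, β = Nat.findGreatest (fun β => phi d lam β ≤ n) n := ⟨_, rfl⟩
  have hβ0 : β₀ ≤ β := by
    rw [hβ]; exact Nat.le_findGreatest (by have := hlt β₀ hn; omega) hn
  have hφ : phi d lam β ≤ n := by
    rw [hβ]
    exact Nat.findGreatest_spec (P := fun β => phi d lam β ≤ n) (m := β₀)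
      (by have := hlt β₀ hn; omega) hn
  have hφ' : ¬ phi d lam (β + 1) ≤ n := by
    have := hlt β hφ
    exact Nat.findGreatest_is_greatest (P := fun β => phi d lam β ≤ n) (n := n)
      (by rw [← hβ]; omega) this
  obtain ⟨b, hb⟩ : ∃ b, b = 2 ^ β := ⟨_, rfl⟩
  have hb1 : 1 ≤ b := by rw [hb]; exact Nat.one_le_two_pow
  obtain ⟨s, hs⟩ : ∃ s, s = b * (d + 1) - 1 := ⟨_, rfl⟩
  have hbd : b * 2 ≤ b * (d + 1) := Nat.mul_le_mul_left _ (by omega)
  have hs1 : s + 1 = b * (d + 1) := by omega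
  have hbs : b ≤ s := by omega
  have hφ2 : (lam * b).choose s + lam * b ≤ n := by
    have := hφ
    unfold phi at this
    rw [← hb, ← hs] at this
    exact this
  have h4s : 4 * s ≤ lam * b := by
    have : 4 * (d + 1) * b ≤ lam * b := Nat.mul_le_mul_right _ hlam
    have h3 : 4 * (d + 1) * b = 4 * (b * (d + 1)) := by ring
    omega
  obtain ⟨r, hr⟩ : ∃ r, r = Nat.findGreatest (fun r => r.choose s + r ≤ n) n := ⟨_, rfl⟩
  have hr1 : lam * b ≤ r := by
    rw [hr]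
    exact Nat.le_findGreatest (by omega) hφ2
  have hr2 : r.choose s + r ≤ n := by
    rw [hr]
    exact Nat.findGreatest_spec (P := fun r => r.choose s + r ≤ n) (m := lam * b)
      (by omega) hφ2
  have hsr : s ≤ r := by omega
  have hcpos : 0 < r.choose s := Nat.choose_pos hsr
  have hr3 : ¬ (r + 1).choose s + (r + 1) ≤ n :=
    Nat.findGreatest_is_greatest (P := fun r => r.choose s + r ≤ n) (n := n)
      (by rw [← hr]; omega) (by omega)
  have hsucc : (r + 1).choose s ≤ 2 * r.choose s := by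
    have h5 := Nat.choose_mul_succ_eq r s
    have h6 : r + 1 ≤ 2 * (r + 1 - s) := by omega
    have h7 : (r + 1).choose s * (r + 1) ≤ 2 * r.choose s * (r + 1) := by
      calc (r + 1).choose s * (r + 1) ≤ (r + 1).choose s * (2 * (r + 1 - s)) :=
            Nat.mul_le_mul_left _ h6
        _ = 2 * ((r + 1).choose s * (r + 1 - s)) := by ring
        _ = 2 * r.choose s * (r + 1) := by rw [← h5]; ring
    exact le_of_mul_le_mul_right h7 (by omega)
  have hrc : r ≤ r.choose s := by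
    have h5 : ∀ t, 1 ≤ t → 2 * t ≤ r → r.choose 1 ≤ r.choose t := by
      intro t ht
      induction t, ht using Nat.le_induction with
      | base => intro _; exact le_rfl
      | succ t ht ih =>
        intro h
        exact (ih (by omega)).trans (Nat.choose_le_succ_of_lt_half_left (by omega))
    simpa using h5 s (by omega) (by omega)
  have hn3 : n ≤ 3 * r.choose s := by omega
  -- real estimates
  have hs0 : (0 : ℝ) < s := by exact_mod_cast (by omega : 0 < s)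
  have hlow := choose_lower r s (by omega) (by omega)
  have hnr : (r.choose s : ℝ) ≤ n := by
    have : r.choose s ≤ n := by omega
    exact_mod_cast this
  refine ⟨β, r, s, hβ0, by rw [← hb]; exact hs1, by rw [← hb]; exact hr1, hr2, hn3, ?_, ?_⟩
  · -- upper bound for `r`
    rw [← hb]
    have h8 : n < 2 ^ (4 * lam * s) := by
      have h9 : n < (lam * 2 ^ (β + 1)).choose (2 ^ (β + 1) * (d + 1) - 1) + lam * 2 ^ (β + 1) := by
        unfold phi at hφ'
        omega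
      have h10 := Nat.choose_le_two_pow (lam * 2 ^ (β + 1)) (2 ^ (β + 1) * (d + 1) - 1)
      have h11 : lam * 2 ^ (β + 1) < 2 ^ (lam * 2 ^ (β + 1)) := Nat.lt_two_pow_self
      have h12 : 2 ^ (lam * 2 ^ (β + 1)) + 2 ^ (lam * 2 ^ (β + 1)) =
          2 ^ (lam * 2 ^ (β + 1) + 1) := by ring
      have h13 : lam * 2 ^ (β + 1) + 1 ≤ 4 * lam * s := by
        have h14 : lam * 2 ^ (β + 1) = 2 * (lam * b) := by rw [pow_succ, ← hb]; ring
        have h15 : lam * b ≤ lam * s := Nat.mul_le_mul_left _ hbs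
        have h16 : 1 ≤ lam * b := by
          have : 1 * 1 ≤ lam * b := Nat.mul_le_mul (by omega) hb1
          simpa using this
        have h17 : 4 * lam * s = 4 * (lam * s) := by ring
        omega
      calc n < 2 ^ (lam * 2 ^ (β + 1)) + 2 ^ (lam * 2 ^ (β + 1)) := by omega
        _ = 2 ^ (lam * 2 ^ (β + 1) + 1) := h12
        _ ≤ 2 ^ (4 * lam * s) := Nat.pow_le_pow_right (by norm_num) h13
    have h9 : ((r : ℝ) / (2 * s)) ^ s < ((2 : ℝ) ^ (4 * lam)) ^ s := by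
      rw [← pow_mul]
      have : (n : ℝ) < (2 : ℝ) ^ (4 * lam * s) := by exact_mod_cast h8
      linarith
    have h10 : (r : ℝ) / (2 * s) < (2 : ℝ) ^ (4 * lam) :=
      lt_of_pow_lt_pow_left₀ s (by positivity) h9
    rw [div_lt_iff₀ (by positivity)] at h10
    have h11 : r < 2 ^ (4 * lam) * (2 * s) := by exact_mod_cast h10
    calc r ≤ 2 ^ (4 * lam) * (2 * s) := h11.le
      _ ≤ 2 ^ (4 * lam) * (2 * (b * (d + 1))) := Nat.mul_le_mul_left _ (by omega)
      _ = (d + 1) * 2 ^ (4 * lam + 1) * b := by rw [pow_succ]; ring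
  · rw [← hb]
    have h8 : (2 : ℝ) ^ s ≤ ((r : ℝ) / (2 * s)) ^ s := by
      apply pow_le_pow_left₀ (by norm_num)
      rw [le_div_iff₀ (by positivity)]
      have : 2 * (2 * s) ≤ r := by omega
      exact_mod_cast this
    have h9 : (2 : ℝ) ^ b ≤ 2 ^ s := pow_le_pow_right₀ (by norm_num) hbs
    have h10 : (2 : ℝ) ^ b ≤ n := by linarith
    exact_mod_cast h10

end Pool.Agent.Lib.MP_b89832_lc
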