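import Mathlib

set_option autoImplicit false

/-!
Randomized `𝔽₂`-linear sketches and one-way communication: definitions.
The cube `{0,1}^n` is `Fin n → ZMod 2`, so that `x + y` is the bitwise XOR.
-/

namespace Pool.Agent.Lib.MP_b89832_lc

/-- The parity `χ_S(x) = ∑_{i ∈ S} x_i mod 2`. -/
def parity {n : ℕ} (S : Finset (Fin n)) (x : Fin n → ZMod 2) : ZMod 2 := ∑ i ∈ S, x i

/-- There is a randomized linear sketch of `f` with `k` parities: a probability distribution `p` on
the `k`-tuples `S = (S₁, …, S_k)` of subsets of `[n]` and decoders `g_S : {0,1}^k → {0,1}` such that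
for every input `x` the equality `g_S (χ_{S₁}(x), …, χ_{S_k}(x)) = f x` holds with probability at
least `2/3`. -/
def HasLinearSketch {n : ℕ} (f : (Fin n → ZMod 2) → Bool) (k : ℕ) : Prop :=
  ∃ (p : (Fin k → Finset (Fin n)) → ℝ) (g : (Fin k → Finset (Fin n)) → (Fin k → ZMod 2) → Bool),
    (∀ S, 0 ≤ p S) ∧ ∑ S, p S = 1 ∧
      ∀ x, 2 / 3 ≤ ∑ S with g S (fun i => parity (S i) x) = f x, p S

/-- The randomized linear sketch complexity `R^lin(f)`. -/
noncomputable def Rlin {n : ℕ} (f : (Fin n → ZMod 2) → Bool) : ℕ :=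
  sInf {k | HasLinearSketch f k}

/-- There is a public-coin randomized one-way protocol for `F` with messages of `c` bits: for a
random `ω` (public coins, distributed according to `p`), Alice, who holds `x`, sends
`msg ω x ∈ {0,1}^c` and Bob, who holds `y`, outputs `out ω (msg ω x) y`; for every `x` and `y` the
output is `F x y` with probability at least `2/3`. -/
def HasOneWayProtocol {X Y : Type} (F : X → Y → Bool) (c : ℕ) : Prop :=
  ∃ (Ω : Type) (_ : Fintype Ω) (p : Ω → ℝ) (msg : Ω → X → (Fin c → Bool))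
    (out : Ω → (Fin c → Bool) → Y → Bool),
    (∀ ω, 0 ≤ p ω) ∧ ∑ ω, p ω = 1 ∧
      ∀ x y, 2 / 3 ≤ ∑ ω with out ω (msg ω x) y = F x y, p ω

/-- The public-coin randomized one-way communication complexity `R^→(F)`. -/
noncomputable def Roneway {X Y : Type} (F : X → Y → Bool) : ℕ :=
  sInf {c | HasOneWayProtocol F c}

/-- The XOR function `f⁺(x, y) = f(x ⊕ y)`. -/
def xorFun {n : ℕ} (f : (Fin n → ZMod 2) → Bool) : (Fin n → ZMod 2) → (Fin n → ZMod 2) → Bool :=
  fun x y => f (x + y)

end Pool.Agent.Lib.MP_b89832_lc
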