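import Pool.Agent.Lib.MP_b89832_lc.Upper

set_option autoImplicit false

/-!
The lower bound for `𝔽₂`-linear sketches (rank of a Hadamard product over `𝔽₂`).
-/

namespace Pool.Agent.Lib.MP_b89832_lc

open Finset

variable {n p r K : ℕ} {ι υ : Type} [Fintype ι] [DecidableEq ι] [Fintype υ]

/-- the sketch as a map -/
def sk (S : Fin K → Finset (Fin n)) (x : Fin n → ZMod 2) : Fin K → ZMod 2 :=
  fun i => parity (S i) x

theorem sk_add (S : Fin K → Finset (Fin n)) (x y : Fin n → ZMod 2) :
    sk S (x + y) = sk S x + sk S y := by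
  funext i
  simp [sk, parity, Finset.sum_add_distrib]

theorem sk_zero (S : Fin K → Finset (Fin n)) : sk S 0 = 0 := by
  funext i
  simp [sk, parity]

/-- extension by zero -/
noncomputable def ext (e : ι ⊕ Fin r ↪ Fin n) (z : ι → ZMod 2) (w : Fin r → ZMod 2) :
    Fin n → ZMod 2 := Function.extend e (Sum.elim z w) 0

theorem ext_inl (e : ι ⊕ Fin r ↪ Fin n) (z : ι → ZMod 2) (w : Fin r → ZMod 2) (i : ι) :
    ext e z w (e (Sum.inl i)) = z i := by
  rw [ext, e.injective.extend_apply]; rfl

theorem ext_inr (e : ι ⊕ Fin r ↪ Fin n) (z : ι → ZMod 2) (w : Fin r → ZMod 2) (l : Fin r) :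
    ext e z w (e (Sum.inr l)) = w l := by
  rw [ext, e.injective.extend_apply]; rfl

theorem ext_add (e : ι ⊕ Fin r ↪ Fin n) (z z' : ι → ZMod 2) (w w' : Fin r → ZMod 2) :
    ext e (z + z') (w + w') = ext e z w + ext e z' w' := by
  have h : Sum.elim (z + z') (w + w') = Sum.elim z w + Sum.elim z' w' := by
    funext a; rcases a with a | a <;> rfl
  unfold ext
  rw [h, ← Function.extend_add, add_zero]

/-- `mask` keeps the coordinates at which the pattern vanishes -/
def mask (N : ι → Prop) [DecidablePred N] (v : ι → ZMod 2) : ι → ZMod 2 :=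
  fun i => if N i then v i else 0

theorem mask_add (N : ι → Prop) [DecidablePred N] (v v' : ι → ZMod 2) :
    mask N (v + v') = mask N v + mask N v' := by
  funext i
  simp only [mask, Pi.add_apply]
  split_ifs <;> simp

open Classical in
/-- the hard inputs -/
noncomputable def inp (e : ι ⊕ Fin r ↪ Fin n) (M : (Fin r → ZMod 2) → ι → ZMod p)
    (w : ι → Fin r → ZMod 2) (j : ι) (b : ZMod 2) (v : ι → ZMod 2) : Fin n → ZMod 2 :=
  ext e (mask (fun i => M (w j) i = 0) v + Pi.single j b) (w j)

theorem orFun_inp (e : ι ⊕ Fin r ↪ Fin n) (M : (Fin r → ZMod 2) → ι → ZMod p)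
    (w : ι → Fin r → ZMod 2) (hdiag : ∀ j, M (w j) j ≠ 0) (j : ι) (b : ZMod 2) (v : ι → ZMod 2) :
    orFun e M (inp e M w j b v) = decide (b ≠ 0) := by
  classical
  unfold orFun inp
  rw [decide_eq_decide]
  simp only [ext_inl, ext_inr]
  constructor
  · rintro ⟨i, h1, h2⟩ hb
    subst hb
    simp [mask, h2] at h1
  · intro hb
    refine ⟨j, ?_, hdiag j⟩
    simp [mask, hdiag j, hb]

/-- the column of the sketch at the coordinate `i` -/
noncomputable def col (e : ι ⊕ Fin r ↪ Fin n) (S : Fin K → Finset (Fin n)) (i : ι) :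
    Fin K → ZMod 2 := sk S (ext e (Pi.single i 1) 0)

/-- `sk S` restricted to the `ι`-coordinates, as a linear map -/
noncomputable def skL (e : ι ⊕ Fin r ↪ Fin n) (S : Fin K → Finset (Fin n)) :
    (ι → ZMod 2) →+ (Fin K → ZMod 2) where
  toFun z := sk S (ext e z 0)
  map_zero' := by
    have h := ext_add e 0 0 0 0
    rw [add_zero, add_zero] at h
    have h2 : ext e (0 : ι → ZMod 2) (0 : Fin r → ZMod 2) = 0 := by
      funext k
      have := congrFun h k
      simp only [Pi.add_apply] at this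
      have h3 : ext e (0 : ι → ZMod 2) (0 : Fin r → ZMod 2) k +
        ext e (0 : ι → ZMod 2) (0 : Fin r → ZMod 2) k = 0 := CharTwo.add_self_eq_zero _
      rw [this, h3]; rfl
    rw [h2, sk_zero]
  map_add' z z' := by
    have h := ext_add e z z' 0 0
    rw [add_zero] at h
    rw [h, sk_add]

/-- the element `j` can be decoded from the sketch -/
def Good (e : ι ⊕ Fin r ↪ Fin n) (M : (Fin r → ZMod 2) → ι → ZMod p)
    (w : ι → Fin r → ZMod 2) (S : Fin K → Finset (Fin n)) (j : ι) : Prop :=
  ∃ φ : Module.Dual (ZMod 2) (Fin K → ZMod 2), φ (col e S j) = 1 ∧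
    ∀ i, M (w j) i = 0 → φ (col e S i) = 0

theorem exists_of_not_good (e : ι ⊕ Fin r ↪ Fin n) (M : (Fin r → ZMod 2) → ι → ZMod p)
    (w : ι → Fin r → ZMod 2) (S : Fin K → Finset (Fin n)) (j : ι) (h : ¬ Good e M w S j) :
    ∃ Q : ι → ZMod 2, (∀ i, M (w j) i ≠ 0 → Q i = 0) ∧ skL e S Q = col e S j := by
  classical
  let A : Set (Fin K → ZMod 2) := col e S '' {i | M (w j) i = 0}
  have hmem : col e S j ∈ Submodule.span (ZMod 2) A := by
    by_contra hnot
    obtain ⟨φ, hφ1, hφ2⟩ := Submodule.exists_le_ker_of_notMem hnot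
    apply h
    refine ⟨φ, ?_, fun i hi => ?_⟩
    · have : ∀ a : ZMod 2, a ≠ 0 → a = 1 := by decide
      exact this _ hφ1
    · have : col e S i ∈ Submodule.span (ZMod 2) A :=
        Submodule.subset_span ⟨i, hi, rfl⟩
      exact hφ2 this
  have key : ∀ x ∈ Submodule.span (ZMod 2) A, ∃ Q : ι → ZMod 2,
      (∀ i, M (w j) i ≠ 0 → Q i = 0) ∧ skL e S Q = x := by
    intro x hx
    induction hx using Submodule.span_induction with
    | mem x hx =>
      obtain ⟨i, hi, rfl⟩ := hx
      refine ⟨Pi.single i 1, fun i' hi' => ?_, rfl⟩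
      have : i' ≠ i := by rintro rfl; exact hi' hi
      simp [Pi.single_eq_of_ne this]
    | zero => exact ⟨0, fun _ _ => rfl, map_zero _⟩
    | add x y _ _ hx hy =>
      obtain ⟨Q, h1, h2⟩ := hx
      obtain ⟨Q', h1', h2'⟩ := hy
      refine ⟨Q + Q', fun i hi => ?_, by rw [map_add, h2, h2']⟩
      rw [Pi.add_apply, h1 i hi, h1' i hi, add_zero]
    | smul a x _ hx =>
      obtain ⟨Q, h1, h2⟩ := hx
      have ha : a = 0 ∨ a = 1 := by revert a; decide
      rcases ha with rfl | rfl
      · exact ⟨0, fun _ _ => rfl, by simp⟩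
      · exact ⟨Q, h1, by rw [h2, one_smul]⟩
  exact key _ hmem

open Classical in
/-- the number of decodable elements is bounded by a product of ranks -/
theorem card_good_le (e : ι ⊕ Fin r ↪ Fin n) (M : (Fin r → ZMod 2) → ι → ZMod p)
    (w : ι → Fin r → ZMod 2) (α : ι → υ → ZMod 2) (hE1 : ∀ j, ∑ u, α j u * α j u = 1)
    (hE0 : ∀ i j, i ≠ j → M (w j) i ≠ 0 → ∑ u, α j u * α i u = 0)
    (S : Fin K → Finset (Fin n)) :
    (univ.filter fun j => Good e M w S j).card ≤ K * Fintype.card υ := by
  have hch : ∀ j : {j // Good e M w S j}, ∃ φ : Module.Dual (ZMod 2) (Fin K → ZMod 2),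
      φ (col e S j) = 1 ∧ ∀ i, M (w j) i = 0 → φ (col e S i) = 0 := fun j => j.2
  choose φ h1 h0 using hch
  let V : {j // Good e M w S j} → (υ → Fin K → ZMod 2) := fun j u => α j u • col e S j
  have hpair : ∀ j i : {j // Good e M w S j},
      ∑ u, α j u * φ j (V i u) = if j = i then 1 else 0 := by
    intro j i
    have h2 : ∑ u, α j u * φ j (V i u) = (∑ u, α j u * α i u) * φ j (col e S i) := by
      rw [Finset.sum_mul]
      refine Finset.sum_congr rfl fun u _ => ?_
      simp only [V, map_smul, smul_eq_mul]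
      ring
    rw [h2]
    by_cases hji : j = i
    · subst hji
      rw [if_pos rfl, hE1, h1, one_mul]
    · rw [if_neg hji]
      by_cases hz : M (w j) i = 0
      · rw [h0 j i hz, mul_zero]
      · rw [hE0 i j (fun h => hji (Subtype.ext h.symm)) hz, zero_mul]
  have hli : LinearIndependent (ZMod 2) V := by
    rw [Fintype.linearIndependent_iff]
    intro c hc j
    have h3 : ∑ u, α j u * φ j ((∑ i, c i • V i) u) = 0 := by
      rw [hc]; simp
    have h4 : ∑ u, α j u * φ j ((∑ i, c i • V i) u) = ∑ i, c i * ∑ u, α j u * φ j (V i u) := by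
      simp only [Finset.sum_apply, Pi.smul_apply, map_sum, map_smul, smul_eq_mul, Finset.mul_sum]
      rw [Finset.sum_comm]
      refine Finset.sum_congr rfl fun i _ => Finset.sum_congr rfl fun u _ => ?_
      ring
    rw [h4] at h3
    simp only [hpair, mul_ite, mul_one, mul_zero, Finset.sum_ite_eq, Finset.mem_univ,
      if_true] at h3
    exact h3
  have h5 := hli.fintype_card_le_finrank
  rw [Module.finrank_pi_fintype] at h5
  simp only [Module.finrank_fintype_fun_eq_card, Fintype.card_fin, Finset.sum_const,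
    Finset.card_univ, smul_eq_mul] at h5
  rw [Fintype.card_subtype] at h5
  rw [mul_comm]
  exact h5

theorem sk_inp_eq (e : ι ⊕ Fin r ↪ Fin n) (M : (Fin r → ZMod 2) → ι → ZMod p)
    (w : ι → Fin r → ZMod 2) (S : Fin K → Finset (Fin n)) (j : ι) (Q : ι → ZMod 2)
    (hQ0 : ∀ i, M (w j) i ≠ 0 → Q i = 0) (hQ : skL e S Q = col e S j) (v : ι → ZMod 2) :
    sk S (inp e M w j 1 v) = sk S (inp e M w j 0 (v + Q)) := by
  classical
  unfold inp
  have h1 : ∀ a b : ι → ZMod 2, sk S (ext e (a + b) (w j)) =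
      sk S (ext e a (w j)) + sk S (ext e b 0) := by
    intro a b
    rw [← sk_add, ← ext_add, add_zero]
  have h2 : mask (fun i => M (w j) i = 0) Q = Q := by
    funext i
    unfold mask
    split_ifs with h
    · rfl
    · exact (hQ0 i h).symm
  rw [h1, Pi.single_zero, add_zero, mask_add, h2, h1]
  congr 1
  exact hQ.symm

open Classical in
theorem pair_le (e : ι ⊕ Fin r ↪ Fin n) (M : (Fin r → ZMod 2) → ι → ZMod p)
    (w : ι → Fin r → ZMod 2) (hdiag : ∀ j, M (w j) j ≠ 0) (S : Fin K → Finset (Fin n))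
    (g : (Fin K → ZMod 2) → Bool) (j : ι) :
    (univ.filter fun v : ι → ZMod 2 =>
        g (sk S (inp e M w j 0 v)) = orFun e M (inp e M w j 0 v)).card +
      (univ.filter fun v : ι → ZMod 2 =>
        g (sk S (inp e M w j 1 v)) = orFun e M (inp e M w j 1 v)).card ≤
      Fintype.card (ι → ZMod 2) + (if Good e M w S j then Fintype.card (ι → ZMod 2) else 0) := by
  split_ifs with hg
  · exact add_le_add (Finset.card_le_univ _) (Finset.card_le_univ _)
  · obtain ⟨Q, hQ0, hQ⟩ := exists_of_not_good e M w S j hg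
    have h1 : (univ.filter fun v : ι → ZMod 2 =>
        g (sk S (inp e M w j 1 v)) = orFun e M (inp e M w j 1 v)).card ≤
        (univ.filter fun v : ι → ZMod 2 =>
        ¬ g (sk S (inp e M w j 0 v)) = orFun e M (inp e M w j 0 v)).card := by
      refine Finset.card_le_card_of_injOn (fun v => v + Q) ?_ ?_
      · intro v hv
        rw [Finset.mem_coe, Finset.mem_filter] at hv ⊢
        refine ⟨Finset.mem_univ _, ?_⟩
        replace hv := hv.2
        rw [orFun_inp e M w hdiag] at hv ⊢
        rw [← sk_inp_eq e M w S j Q hQ0 hQ v, hv]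
        decide
      · intro v _ v' _ h
        exact add_right_cancel h
    have h2 := Finset.card_filter_add_card_filter_not (s := (univ : Finset (ι → ZMod 2)))
      (p := fun v => g (sk S (inp e M w j 0 v)) = orFun e M (inp e M w j 0 v))
    rw [Finset.card_univ] at h2
    omega

open Classical in
/-- The lower bound. -/
theorem lower (e : ι ⊕ Fin r ↪ Fin n) (M : (Fin r → ZMod 2) → ι → ZMod p)
    (w : ι → Fin r → ZMod 2) (hdiag : ∀ j, M (w j) j ≠ 0)
    (α : ι → υ → ZMod 2) (hE1 : ∀ j, ∑ u, α j u * α j u = 1)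
    (hE0 : ∀ i j, i ≠ j → M (w j) i ≠ 0 → ∑ u, α j u * α i u = 0)
    (hK : HasLinearSketch (orFun e M) K) : Fintype.card ι ≤ 3 * (K * Fintype.card υ) := by
  obtain ⟨q, g, hq0, hq1, hq⟩ := hK
  let P : ℝ := Fintype.card (ι → ZMod 2)
  have hP : 0 < P := by
    have : 0 < Fintype.card (ι → ZMod 2) := Fintype.card_pos
    exact Nat.cast_pos.2 this
  -- the average success probability over the hard inputs
  have h1 : (Fintype.card ι : ℝ) * (P * (4 / 3)) ≤ ∑ j : ι, ∑ v : ι → ZMod 2,
      ((∑ S with g S (sk S (inp e M w j 0 v)) = orFun e M (inp e M w j 0 v), q S) +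
        ∑ S with g S (sk S (inp e M w j 1 v)) = orFun e M (inp e M w j 1 v), q S) := by
    have h2 : ∑ _j : ι, ∑ _v : ι → ZMod 2, ((4 : ℝ) / 3) = (Fintype.card ι : ℝ) * (P * (4 / 3)) := by
      simp [P]
    rw [← h2]
    refine Finset.sum_le_sum fun j _ => Finset.sum_le_sum fun v _ => ?_
    have h3 := hq (inp e M w j 0 v)
    have h4 := hq (inp e M w j 1 v)
    have h5 : (4 : ℝ) / 3 = 2 / 3 + 2 / 3 := by norm_num
    rw [h5]
    exact add_le_add h3 h4
  have h2 : ∑ j : ι, ∑ v : ι → ZMod 2,
      ((∑ S with g S (sk S (inp e M w j 0 v)) = orFun e M (inp e M w j 0 v), q S) +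
        ∑ S with g S (sk S (inp e M w j 1 v)) = orFun e M (inp e M w j 1 v), q S) =
      ∑ S, q S * ∑ j : ι, (((univ.filter fun v : ι → ZMod 2 =>
        g S (sk S (inp e M w j 0 v)) = orFun e M (inp e M w j 0 v)).card : ℝ) +
      ((univ.filter fun v : ι → ZMod 2 =>
        g S (sk S (inp e M w j 1 v)) = orFun e M (inp e M w j 1 v)).card : ℝ)) := by
    simp only [Finset.mul_sum]
    rw [Finset.sum_comm (s := (univ : Finset (Fin K → Finset (Fin n))))]
    refine Finset.sum_congr rfl fun j _ => ?_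
    simp only [Finset.card_filter, Nat.cast_sum, ← Finset.sum_add_distrib, Finset.mul_sum]
    rw [Finset.sum_comm]
    refine Finset.sum_congr rfl fun v _ => ?_
    rw [Finset.sum_filter, Finset.sum_filter, ← Finset.sum_add_distrib]
    refine Finset.sum_congr rfl fun S _ => ?_
    rw [mul_add]
    congr 1
    · split_ifs <;> simp
    · split_ifs <;> simp
  have h3 : ∀ S : Fin K → Finset (Fin n), ∑ j : ι, (((univ.filter fun v : ι → ZMod 2 =>
        g S (sk S (inp e M w j 0 v)) = orFun e M (inp e M w j 0 v)).card : ℝ) +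
      ((univ.filter fun v : ι → ZMod 2 =>
        g S (sk S (inp e M w j 1 v)) = orFun e M (inp e M w j 1 v)).card : ℝ)) ≤
      P * (Fintype.card ι + K * Fintype.card υ) := by
    intro S
    have h4 : ∑ j : ι, (((univ.filter fun v : ι → ZMod 2 =>
        g S (sk S (inp e M w j 0 v)) = orFun e M (inp e M w j 0 v)).card : ℝ) +
      ((univ.filter fun v : ι → ZMod 2 =>
        g S (sk S (inp e M w j 1 v)) = orFun e M (inp e M w j 1 v)).card : ℝ)) ≤
        ∑ j : ι, (P + if Good e M w S j then P else 0) := by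
      refine Finset.sum_le_sum fun j _ => ?_
      have h5 := pair_le e M w hdiag S (g S) j
      have h6 : (((univ.filter fun v : ι → ZMod 2 =>
        g S (sk S (inp e M w j 0 v)) = orFun e M (inp e M w j 0 v)).card +
      (univ.filter fun v : ι → ZMod 2 =>
        g S (sk S (inp e M w j 1 v)) = orFun e M (inp e M w j 1 v)).card : ℕ) : ℝ) ≤
          ((Fintype.card (ι → ZMod 2) +
            (if Good e M w S j then Fintype.card (ι → ZMod 2) else 0) : ℕ) : ℝ) := by
        exact_mod_cast h5
      push_cast at h6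
      have h7 : ((if Good e M w S j then ((Fintype.card (ι → ZMod 2) : ℕ) : ℝ) else 0)) =
          if Good e M w S j then P else 0 := rfl
      simp only [P]
      split_ifs at h6 ⊢ with hg
      · push_cast at h6 ⊢; exact h6
      · push_cast at h6 ⊢; exact h6
    refine h4.trans ?_
    rw [Finset.sum_add_distrib, Finset.sum_const, Finset.card_univ, nsmul_eq_mul,
      ← Finset.sum_filter, Finset.sum_const, nsmul_eq_mul]
    have h5 : ((univ.filter fun j => Good e M w S j).card : ℝ) ≤ K * Fintype.card υ := by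
      exact_mod_cast card_good_le e M w α hE1 hE0 S
    nlinarith
  have h4 : ∑ S, q S * ∑ j : ι, (((univ.filter fun v : ι → ZMod 2 =>
        g S (sk S (inp e M w j 0 v)) = orFun e M (inp e M w j 0 v)).card : ℝ) +
      ((univ.filter fun v : ι → ZMod 2 =>
        g S (sk S (inp e M w j 1 v)) = orFun e M (inp e M w j 1 v)).card : ℝ)) ≤
      P * (Fintype.card ι + K * Fintype.card υ) := by
    calc _ ≤ ∑ S, q S * (P * (Fintype.card ι + K * Fintype.card υ)) :=
          Finset.sum_le_sum fun S _ => mul_le_mul_of_nonneg_left (h3 S) (hq0 S)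
      _ = _ := by rw [← Finset.sum_mul, hq1, one_mul]
  rw [h2] at h1
  have h5 := h1.trans h4
  have h6 : (Fintype.card ι : ℝ) * (4 / 3) ≤ Fintype.card ι + K * Fintype.card υ := by
    have : P * ((Fintype.card ι : ℝ) * (4 / 3)) ≤ P * (Fintype.card ι + K * Fintype.card υ) := by
      linarith
    exact le_of_mul_le_mul_left this hP
  have h7 : (Fintype.card ι : ℝ) ≤ 3 * (K * Fintype.card υ) := by linarith
  exact_mod_cast h7

end Pool.Agent.Lib.MP_b89832_lc
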