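import Pool.Agent.Lib.MP_b89832_lc.Asym

set_option autoImplicit false

/-!
The main theorem.
-/

namespace Pool.Agent.Lib.MP_b89832_lc

open Finset

theorem hasLinearSketch_self {n : ℕ} (f : (Fin n → ZMod 2) → Bool) : HasLinearSketch f n := by
  classical
  refine ⟨fun S => if S = (fun i => {i}) then 1 else 0, fun _ v => f v, fun S => ?_, ?_,
    fun x => ?_⟩
  · show (0 : ℝ) ≤ if S = (fun i => {i}) then 1 else 0
    split_ifs <;> norm_num
  · simp
  · have h1 : ∑ S with f (fun i => parity (S i) x) = f x,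
        (if S = (fun i => ({i} : Finset (Fin n))) then (1 : ℝ) else 0) = 1 := by
      rw [Finset.sum_ite_eq' , if_pos]
      rw [Finset.mem_filter]
      refine ⟨Finset.mem_univ _, ?_⟩
      congr 1
      funext i
      simp [parity]
    rw [h1]
    norm_num

theorem hasLinearSketch_Rlin {n : ℕ} (f : (Fin n → ZMod 2) → Bool) :
    HasLinearSketch f (Rlin f) := Nat.sInf_mem (s := {k | HasLinearSketch f k})
      ⟨n, hasLinearSketch_self f⟩

/-- the estimate of the binomial coefficients -/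
theorem key_log (d : ℕ) (hd : 1 ≤ d) (δ : ℝ) (hδ : 0 < δ) (b s r n : ℕ) (hb : 1 ≤ b)
    (hs : s + 1 = b * (d + 1)) (lam : ℝ) (hbr : lam * b ≤ r)
    (hlam : 2 * (d + 1) * Real.exp ((Real.log 9 + 1 + Real.log (2 * (d + 1))) / δ) ≤ lam)
    (h4 : 4 * s ≤ r) (hbb : (1 / ((d : ℝ) + 1) + δ) / (δ * d) ≤ b) (hn : r.choose s ≤ n) :
    9 * (r.choose (b - 1) : ℝ) ≤ (n : ℝ) ^ (1 / ((d : ℝ) + 1) + δ) := by
  have hd0 : (0 : ℝ) < d := by exact_mod_cast hd
  have hb0 : (0 : ℝ) < b := by exact_mod_cast hb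
  have hb1 : (1 : ℝ) ≤ b := by exact_mod_cast hb
  have hbd : b * 2 ≤ b * (d + 1) := Nat.mul_le_mul_left _ (by omega)
  have hs1 : 1 ≤ s := by omega
  have hs0 : (0 : ℝ) < s := by exact_mod_cast hs1
  obtain ⟨T, hT⟩ : ∃ T, T = (Real.log 9 + 1 + Real.log (2 * (d + 1))) / δ := ⟨_, rfl⟩
  rw [← hT] at hlam
  have hlog9 : 0 < Real.log 9 := Real.log_pos (by norm_num)
  have hlog2D : 0 < Real.log (2 * ((d : ℝ) + 1)) := Real.log_pos (by linarith)
  have hT0 : 0 < T := by rw [hT]; positivity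
  have hlam0 : 0 < lam := lt_of_lt_of_le (by positivity) hlam
  have hr0 : (0 : ℝ) < r := lt_of_lt_of_le (by positivity) hbr
  have hrb : lam ≤ (r : ℝ) / b := by rw [le_div_iff₀ hb0]; exact hbr
  obtain ⟨t, ht⟩ : ∃ t, t = Real.log ((r : ℝ) / b) - Real.log (2 * (d + 1)) := ⟨_, rfl⟩
  have htT : T ≤ t := by
    have h1 : Real.log (2 * ((d : ℝ) + 1) * Real.exp T) ≤ Real.log ((r : ℝ) / b) :=
      Real.log_le_log (by positivity) (hlam.trans hrb)
    rw [Real.log_mul (by positivity) (by positivity), Real.log_exp] at h1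
    rw [ht]; linarith
  have hsr : (s : ℝ) + 1 = b * (d + 1) := by exact_mod_cast hs
  -- lower bound for `log n`
  have hn0 : (0 : ℝ) < n := by
    have : 0 < r.choose s := Nat.choose_pos (by omega)
    exact_mod_cast (by omega : 0 < n)
  have hlogn : s * t ≤ Real.log n := by
    have h1 := choose_lower r s hs1 (by omega)
    have h2 : ((r : ℝ) / (2 * s)) ^ s ≤ n := h1.trans (by exact_mod_cast hn)
    have h3 : Real.log (((r : ℝ) / (2 * s)) ^ s) ≤ Real.log n :=
      Real.log_le_log (by positivity) h2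
    rw [Real.log_pow] at h3
    have h4 : t ≤ Real.log ((r : ℝ) / (2 * s)) := by
      have h5 : (r : ℝ) / (b * (2 * (d + 1))) ≤ (r : ℝ) / (2 * s) := by
        apply div_le_div_of_nonneg_left hr0.le (by positivity)
        nlinarith
      have h6 : Real.log ((r : ℝ) / (b * (2 * (d + 1)))) ≤ Real.log ((r : ℝ) / (2 * s)) :=
        Real.log_le_log (by positivity) h5
      rw [← div_div, Real.log_div (by positivity) (by positivity)] at h6
      rw [ht]; exact h6
    exact (mul_le_mul_of_nonneg_left h4 hs0.le).trans h3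
  -- upper bound for the binomial coefficient
  have hbler : b ≤ r := by omega
  have hup := choose_upper r b hb hbler
  have hCpos : (0 : ℝ) < r.choose (b - 1) := by
    exact_mod_cast Nat.choose_pos (by omega : b - 1 ≤ r)
  have hlogC : Real.log (9 * (r.choose (b - 1) : ℝ)) ≤
      Real.log 9 + b * (1 + t + Real.log (2 * (d + 1))) := by
    rw [Real.log_mul (by norm_num) hCpos.ne']
    have h1 := Real.log_le_log hCpos hup
    rw [Real.log_pow, Real.log_mul (by positivity) (by positivity), Real.log_exp] at h1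
    have h2 : Real.log ((r : ℝ) / b) = t + Real.log (2 * (d + 1)) := by rw [ht]; ring
    rw [h2] at h1
    linarith
  -- comparison
  have hcmp : Real.log 9 + b * (1 + t + Real.log (2 * (d + 1))) ≤
      (1 / ((d : ℝ) + 1) + δ) * Real.log n := by
    have ha : 0 < 1 / ((d : ℝ) + 1) + δ := by positivity
    have h1 : (1 / ((d : ℝ) + 1) + δ) * (s * t) ≤ (1 / ((d : ℝ) + 1) + δ) * Real.log n :=
      mul_le_mul_of_nonneg_left hlogn ha.le
    refine le_trans ?_ h1
    have ht0 : 0 < t := lt_of_lt_of_le hT0 htT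
    have h2 : (b : ℝ) * (1 + δ) ≤ (1 / ((d : ℝ) + 1) + δ) * s := by
      have h3 : (s : ℝ) = b * (d + 1) - 1 := by linarith
      rw [h3]
      rw [div_le_iff₀ (by positivity)] at hbb
      have h5 : (1 / ((d : ℝ) + 1) + δ) * (b * (d + 1) - 1) =
          b + b * (δ * d) + b * δ - (1 / ((d : ℝ) + 1) + δ) := by
        field_simp
        ring
      rw [h5]
      nlinarith
    have h3 : (b : ℝ) * (1 + δ) * t ≤ (1 / ((d : ℝ) + 1) + δ) * s * t :=
      mul_le_mul_of_nonneg_right h2 ht0.le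
    have h4 : Real.log 9 + 1 + Real.log (2 * (d + 1)) ≤ δ * t := by
      have : T * δ = Real.log 9 + 1 + Real.log (2 * (d + 1)) := by
        rw [hT]; field_simp
      nlinarith
    have h5 : Real.log 9 ≤ b * Real.log 9 := by nlinarith
    nlinarith
  have hfin := hlogC.trans hcmp
  rw [← Real.log_rpow hn0] at hfin
  exact (Real.log_le_log_iff (by positivity) (Real.rpow_pos_of_pos hn0 _)).1 hfin

theorem main (d : ℕ) (hd : 1 ≤ d) (δ : ℝ) (hδ : 0 < δ) :
    ∃ C : ℝ, ∃ n₀ : ℕ, ∀ n : ℕ, n₀ ≤ n → ∃ f : (Fin n → ZMod 2) → Bool,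
      (Roneway (xorFun f) : ℝ) ≤ C * Real.log n ^ d ∧
        (n : ℝ) ^ ((d : ℝ) / (d + 1) - δ) ≤ Rlin f := by
  classical
  obtain ⟨p, hpge, hp⟩ := Nat.exists_infinite_primes (d + 3)
  have : Fact p.Prime := ⟨hp⟩
  obtain ⟨E, hE⟩ : ∃ E : ℝ, E = Real.exp ((Real.log 9 + 1 + Real.log (2 * (d + 1))) / δ) :=
    ⟨_, rfl⟩
  obtain ⟨lam, hlam⟩ : ∃ lam : ℕ, lam = 4 * (d + 1) + ⌈2 * ((d : ℝ) + 1) * E⌉₊ := ⟨_, rfl⟩
  obtain ⟨β₀, hβ₀⟩ : ∃ β₀ : ℕ, β₀ = ⌈(1 / ((d : ℝ) + 1) + δ) / (δ * d)⌉₊ := ⟨_, rfl⟩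
  have hlog2 : 0 < Real.log 2 := Real.log_pos (by norm_num)
  refine ⟨(1 + p) * (2 * ((d + 1) * 2 ^ (4 * lam + 1)) / Real.log 2) ^ d, phi d lam β₀,
    fun n hn => ?_⟩
  obtain ⟨β, r, s, h1, h2, h3, h4, h5, h6, h7⟩ := params d lam β₀ n hd (by omega) hn
  obtain ⟨b, hb⟩ : ∃ b, b = 2 ^ β := ⟨_, rfl⟩
  have hb1 : 1 ≤ b := by rw [hb]; exact Nat.one_le_two_pow
  obtain ⟨e⟩ : Nonempty (Sub r s ⊕ Fin r ↪ Fin n) := by
    apply Function.Embedding.nonempty_of_card_le
    rw [Fintype.card_sum, card_Sub, Fintype.card_fin, Fintype.card_fin]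
    exact h4
  have hlb : 4 * (d + 1) * b ≤ lam * b := Nat.mul_le_mul_right _ (by omega)
  have h4s : 4 * s ≤ r := by
    have h8 : 4 * (d + 1) * b = 4 * (b * (d + 1)) := by ring
    rw [← hb] at h2 h3
    omega
  have hb0 : (0 : ℝ) < b := by exact_mod_cast hb1
  have hr1 : 1 ≤ r := by
    rw [← hb] at h3
    have : 1 * 1 ≤ lam * b := Nat.mul_le_mul (by omega) hb1
    omega
  refine ⟨fn p r s b d e, ?_, ?_⟩
  · -- the protocol
    have hc : 2 ^ r * p ^ ((r + 1) ^ d) ≤ 2 ^ (r + p * (r + 1) ^ d) := by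
      rw [pow_add, pow_mul]
      exact Nat.mul_le_mul_left _ (Nat.pow_le_pow_left Nat.lt_two_pow_self.le _)
    have h8 := fn_upper (by omega : 3 ≤ p) r s b d e _ hc
    have h9 : Roneway (xorFun (fn p r s b d e)) ≤ r + p * (r + 1) ^ d := Nat.sInf_le h8
    have h10 : (Roneway (xorFun (fn p r s b d e)) : ℝ) ≤ r + p * ((r : ℝ) + 1) ^ d := by
      exact_mod_cast h9
    have h11 : (r : ℝ) ≤ ((r : ℝ) + 1) ^ d := by
      have : ((r : ℝ) + 1) ^ 1 ≤ ((r : ℝ) + 1) ^ d :=
        pow_le_pow_right₀ (by have : (0 : ℝ) ≤ r := Nat.cast_nonneg r; linarith) hd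
      rw [pow_one] at this; linarith
    have h12 : (r : ℝ) + 1 ≤ 2 * ((d + 1) * 2 ^ (4 * lam + 1)) / Real.log 2 * Real.log n := by
      have h13 : (b : ℝ) * Real.log 2 ≤ Real.log n := by
        rw [← hb] at h7
        have h14 : (2 : ℝ) ^ b ≤ n := by exact_mod_cast h7
        have h15 := Real.log_le_log (by positivity) h14
        rw [Real.log_pow] at h15
        exact h15
      have h14 : (r : ℝ) ≤ (d + 1) * 2 ^ (4 * lam + 1) * b := by
        rw [← hb] at h6
        exact_mod_cast h6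
      have h15 : (1 : ℝ) ≤ r := by exact_mod_cast hr1
      have h16 : 2 * (((d : ℝ) + 1) * 2 ^ (4 * lam + 1)) / Real.log 2 * Real.log n ≥
          2 * (((d : ℝ) + 1) * 2 ^ (4 * lam + 1)) / Real.log 2 * (b * Real.log 2) :=
        mul_le_mul_of_nonneg_left h13 (by positivity)
      have h17 : 2 * (((d : ℝ) + 1) * 2 ^ (4 * lam + 1)) / Real.log 2 * (b * Real.log 2) =
          2 * (((d : ℝ) + 1) * 2 ^ (4 * lam + 1) * b) := by
        field_simp
      linarith
    calc (Roneway (xorFun (fn p r s b d e)) : ℝ) ≤ r + p * ((r : ℝ) + 1) ^ d := h10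
      _ ≤ (1 + p) * ((r : ℝ) + 1) ^ d := by linarith
      _ ≤ (1 + p) * (2 * ((d + 1) * 2 ^ (4 * lam + 1)) / Real.log 2 * Real.log n) ^ d :=
          mul_le_mul_of_nonneg_left (pow_le_pow_left₀ (by positivity) h12 d) (by positivity)
      _ = _ := by rw [mul_pow]; ring
  · -- the lower bound
    have h8 := fn_lower (by omega : p ≠ 2) r s β d (by omega : d < p) h2 e _
      (hasLinearSketch_Rlin (fn p r s (2 ^ β) d e))
    rw [← hb] at h8
    obtain ⟨R, hR⟩ : ∃ R, R = Rlin (fn p r s b d e) := ⟨_, rfl⟩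
    rw [← hR] at h8 ⊢
    have hkey := key_log d hd δ hδ b s r n hb1 (by rw [hb]; exact h2) (lam : ℝ)
      (by rw [← hb] at h3; exact_mod_cast h3)
      (by
        rw [← hE]
        have h9 : 2 * ((d : ℝ) + 1) * E ≤ (⌈2 * ((d : ℝ) + 1) * E⌉₊ : ℝ) := Nat.le_ceil _
        rw [hlam]
        push_cast
        have : (0 : ℝ) ≤ d := Nat.cast_nonneg d
        linarith) h4s
      (by
        have h9 : (1 / ((d : ℝ) + 1) + δ) / (δ * d) ≤ (β₀ : ℝ) := by
          rw [hβ₀]; exact Nat.le_ceil _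
        have h10 : β₀ ≤ b := by
          rw [hb]; exact h1.trans Nat.lt_two_pow_self.le
        exact h9.trans (by exact_mod_cast h10)) (by omega)
    have hn0 : (0 : ℝ) < n := by
      have : 0 < r.choose s := Nat.choose_pos (by omega)
      exact_mod_cast (by omega : 0 < n)
    have h9 : (n : ℝ) ≤ R * (9 * (r.choose (b - 1) : ℝ)) := by
      have : n ≤ R * (9 * r.choose (b - 1)) := by
        calc n ≤ 3 * r.choose s := h5
          _ ≤ 3 * (3 * (R * r.choose (b - 1))) := Nat.mul_le_mul_left _ h8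
          _ = R * (9 * r.choose (b - 1)) := by ring
      exact_mod_cast this
    have h10 : (n : ℝ) ≤ R * (n : ℝ) ^ (1 / ((d : ℝ) + 1) + δ) :=
      h9.trans (mul_le_mul_of_nonneg_left hkey (Nat.cast_nonneg R))
    have h11 : (d : ℝ) / (d + 1) - δ = 1 - (1 / ((d : ℝ) + 1) + δ) := by
      field_simp
      ring
    rw [h11, Real.rpow_sub hn0, Real.rpow_one, div_le_iff₀ (Real.rpow_pos_of_pos hn0 _)]
    exact h10

end Pool.Agent.Lib.MP_b89832_lc
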