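import Pool.Agent.Lib.MP_b89832_lc.Lower

set_option autoImplicit false

/-!
The instance: `s`-subsets of `[r]`, `s = 2^β (d+1) - 1`.
-/

namespace Pool.Agent.Lib.MP_b89832_lc

open Finset

/-- `C(x, 2^β - 1)` is odd iff `2^β` divides `x + 1`. -/
theorem choose_mod_two (β : ℕ) : ∀ x : ℕ, x.choose (2 ^ β - 1) % 2 = 1 ↔ 2 ^ β ∣ x + 1 := by
  induction β with
  | zero => intro x; simp
  | succ β ih =>
    intro x
    have hpos : 0 < 2 ^ β := by positivity
    have h1 := @Choose.choose_modEq_choose_mod_mul_choose_div_nat x (2 ^ (β + 1) - 1) 2 _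
    have h2 : (2 ^ (β + 1) - 1) % 2 = 1 := by rw [pow_succ]; omega
    have h3 : (2 ^ (β + 1) - 1) / 2 = 2 ^ β - 1 := by rw [pow_succ]; omega
    rw [h2, h3, Nat.choose_one_right] at h1
    have h4 : x.choose (2 ^ (β + 1) - 1) % 2 = (x % 2 * (x / 2).choose (2 ^ β - 1)) % 2 := h1
    rw [h4]
    have h5 : 2 ^ (β + 1) ∣ x + 1 ↔ x % 2 = 1 ∧ 2 ^ β ∣ x / 2 + 1 := by
      constructor
      · rintro ⟨c, hc⟩
        have h6 : x % 2 = 1 := by
          rw [pow_succ, mul_assoc] at hc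
          have : x + 1 = 2 * (2 ^ β * c) := by rw [hc]; ring
          omega
        refine ⟨h6, c, ?_⟩
        rw [pow_succ, mul_assoc] at hc
        have : x + 1 = 2 * (2 ^ β * c) := by rw [hc]; ring
        omega
      · rintro ⟨h6, c, hc⟩
        refine ⟨c, ?_⟩
        rw [pow_succ]
        have : x = 2 * (x / 2) + 1 := by omega
        calc x + 1 = 2 * (x / 2 + 1) := by omega
          _ = 2 ^ β * 2 * c := by rw [hc]; ring
    rw [h5, ← ih]
    rcases Nat.mod_two_eq_zero_or_one x with hx | hx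
    · rw [hx]; simp
    · rw [hx, one_mul]
      simp

/-- the `s`-subsets of `[r]` -/
abbrev Sub (r s : ℕ) : Type := {A : Finset (Fin r) // A.card = s}

theorem card_Sub (r s : ℕ) : Fintype.card (Sub r s) = r.choose s := by
  have := Fintype.card_finset_len (α := Fin r) s
  rw [Fintype.card_fin] at this
  exact this

/-- the pattern -/
noncomputable def pat (p r s b d : ℕ) (w : Fin r → ZMod 2) (A : Sub r s) : ZMod p :=
  ∏ i : Fin d, ((∑ l, lft p (w l) * (if l ∈ A.1 then 1 else 0)) + (1 - ((i : ℕ) + 1) * b))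

/-- one factor of the left vectors -/
def tf (p : ℕ) {r : ℕ} (b : ℕ) (w : Fin r → ZMod 2) (i : ℕ) (o : Option (Fin r)) : ZMod p :=
  match o with
  | none => 1 - ((i : ZMod p) + 1) * b
  | some l => lft p (w l)

/-- one factor of the right vectors -/
def gf (p : ℕ) {r s : ℕ} (A : Sub r s) (o : Option (Fin r)) : ZMod p :=
  match o with
  | none => 1
  | some l => if l ∈ A.1 then 1 else 0

/-- the left vectors -/
noncomputable def thetaV (p r b d : ℕ) (w : Fin r → ZMod 2) (u : Fin d → Option (Fin r)) :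
    ZMod p := ∏ i : Fin d, tf p b w i (u i)

/-- the right vectors -/
noncomputable def gV (p r s d : ℕ) (A : Sub r s) (u : Fin d → Option (Fin r)) : ZMod p :=
  ∏ i : Fin d, gf p A (u i)

theorem pat_eq (p r s b d : ℕ) (w : Fin r → ZMod 2) (A : Sub r s) :
    pat p r s b d w A = ∑ u, thetaV p r b d w u * gV p r s d A u := by
  unfold pat thetaV gV
  simp only [← Finset.prod_mul_distrib]
  rw [← Fintype.piFinset_univ, ← Finset.prod_univ_sum (fun _ => univ) (fun (i : Fin d)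
    (o : Option (Fin r)) => tf p b w i o * gf p A o)]
  refine Finset.prod_congr rfl fun i _ => ?_
  rw [Fintype.sum_option, add_comm]
  simp [tf, gf]

/-- the indicator of a set -/
def indw {r s : ℕ} (A : Sub r s) : Fin r → ZMod 2 := fun l => if l ∈ A.1 then 1 else 0

theorem pat_indw (p r s b d : ℕ) (B A : Sub r s) :
    pat p r s b d (indw B) A =
      ∏ i : Fin d, (((B.1 ∩ A.1).card : ZMod p) + (1 - ((i : ℕ) + 1) * b)) := by
  unfold pat
  refine Finset.prod_congr rfl fun i _ => ?_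
  congr 1
  have h1 : ∀ l, lft p (indw B l) * (if l ∈ A.1 then (1 : ZMod p) else 0) =
      if l ∈ B.1 ∩ A.1 then 1 else 0 := by
    intro l
    unfold indw lft
    by_cases hB : l ∈ B.1 <;> by_cases hA : l ∈ A.1 <;> simp [hB, hA]
  simp only [h1]
  rw [Finset.sum_ite_mem, Finset.univ_inter, Finset.sum_const, nsmul_eq_mul, mul_one]

/-- the second family of vectors, over `𝔽₂` -/
def alphaV (r s t : ℕ) (A : Sub r s) (T : Sub r t) : ZMod 2 := if T.1 ⊆ A.1 then 1 else 0

theorem sum_alpha (r s t : ℕ) (B A : Sub r s) :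
    ∑ T, alphaV r s t B T * alphaV r s t A T = (((B.1 ∩ A.1).card.choose t : ℕ) : ZMod 2) := by
  have h1 : ∀ T : Sub r t, alphaV r s t B T * alphaV r s t A T =
      if T.1 ⊆ B.1 ∩ A.1 then 1 else 0 := by
    intro T
    unfold alphaV
    by_cases hB : T.1 ⊆ B.1 <;> by_cases hA : T.1 ⊆ A.1 <;> simp [hB, hA, Finset.subset_inter_iff]
  simp only [h1]
  rw [← Finset.sum_filter, Finset.sum_const, nsmul_eq_mul, mul_one]
  congr 1
  rw [← Finset.card_powersetCard]
  refine Finset.card_bij (fun T _ => T.1) ?_ ?_ ?_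
  · intro T hT
    rw [Finset.mem_filter] at hT
    exact Finset.mem_powersetCard.2 ⟨hT.2, T.2⟩
  · intro T _ T' _ h
    exact Subtype.ext h
  · intro T hT
    rw [Finset.mem_powersetCard] at hT
    exact ⟨⟨T, hT.2⟩, Finset.mem_filter.2 ⟨Finset.mem_univ _, hT.1⟩, rfl⟩

theorem pat_diag {p : ℕ} [hp : Fact p.Prime] (r s β d : ℕ) (hs : s + 1 = 2 ^ β * (d + 1))
    (hp2 : p ≠ 2) (hpd : d < p) (A : Sub r s) : pat p r s (2 ^ β) d (indw A) A ≠ 0 := by
  rw [pat_indw, Finset.prod_ne_zero_iff]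
  intro i _
  have hi := i.2
  rw [Finset.inter_self, A.2]
  have h1 : ((s : ZMod p) + (1 - ((i : ℕ) + 1) * ((2 ^ β : ℕ) : ZMod p))) =
      ((2 ^ β * (d - i) : ℕ) : ZMod p) := by
    have h2 : ((s + 1 : ℕ) : ZMod p) = ((2 ^ β * (d + 1) : ℕ) : ZMod p) := by rw [hs]
    push_cast [Nat.cast_sub hi.le] at h2 ⊢
    linear_combination h2
  rw [h1, Ne, ZMod.natCast_eq_zero_iff]
  intro hdvd
  rcases (Nat.Prime.dvd_mul hp.out).1 hdvd with h | h
  · have := Nat.Prime.dvd_of_dvd_pow hp.out h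
    exact hp2 ((Nat.prime_dvd_prime_iff_eq hp.out Nat.prime_two).1 this)
  · have := Nat.le_of_dvd (by omega) h
    omega

theorem alpha_diag (r s β d : ℕ) (hs : s + 1 = 2 ^ β * (d + 1)) (A : Sub r s) :
    ∑ T, alphaV r s (2 ^ β - 1) A T * alphaV r s (2 ^ β - 1) A T = 1 := by
  rw [sum_alpha, Finset.inter_self, A.2]
  have h1 := (choose_mod_two β s).2 ⟨d + 1, hs⟩
  rw [← ZMod.natCast_mod, h1]
  rfl

theorem alpha_off {p : ℕ} [Fact p.Prime] (r s β d : ℕ) (hs : s + 1 = 2 ^ β * (d + 1))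
    (A B : Sub r s) (hAB : A ≠ B) (h : pat p r s (2 ^ β) d (indw B) A ≠ 0) :
    ∑ T, alphaV r s (2 ^ β - 1) B T * alphaV r s (2 ^ β - 1) A T = 0 := by
  rw [sum_alpha]
  have hpos : 0 < 2 ^ β := by positivity
  by_contra hne
  have h1 : (B.1 ∩ A.1).card.choose (2 ^ β - 1) % 2 = 1 := by
    rcases Nat.mod_two_eq_zero_or_one ((B.1 ∩ A.1).card.choose (2 ^ β - 1)) with h2 | h2
    · exfalso
      apply hne
      rw [← ZMod.natCast_mod, h2]
      rfl
    · exact h2
  rw [choose_mod_two] at h1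
  obtain ⟨j, hj⟩ := h1
  have hlt : (B.1 ∩ A.1).card < s := by
    have h3 : (B.1 ∩ A.1).card ≤ s := by
      exact (Finset.card_le_card Finset.inter_subset_right).trans A.2.le
    refine lt_of_le_of_ne h3 fun h4 => hAB ?_
    have h5 : B.1 ∩ A.1 = A.1 :=
      Finset.eq_of_subset_of_card_le Finset.inter_subset_right (by rw [h4, A.2])
    have h6 : A.1 ⊆ B.1 := by rw [← h5]; exact Finset.inter_subset_left
    exact Subtype.ext (Finset.eq_of_subset_of_card_le h6 (by rw [A.2, B.2]))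
  have hj1 : 1 ≤ j := by
    rcases Nat.eq_zero_or_pos j with rfl | h'
    · omega
    · exact h'
  have hjd : j < d + 1 := by
    have h7 : 2 ^ β * j < 2 ^ β * (d + 1) := by rw [← hj, ← hs]; omega
    exact lt_of_mul_lt_mul_left h7 (Nat.zero_le _)
  apply h
  rw [pat_indw]
  refine Finset.prod_eq_zero (Finset.mem_univ (⟨j - 1, by omega⟩ : Fin d)) ?_
  have h8 : (((B.1 ∩ A.1).card + 1 : ℕ) : ZMod p) = ((2 ^ β * j : ℕ) : ZMod p) := by rw [hj]
  push_cast [Nat.cast_sub hj1] at h8 ⊢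
  linear_combination h8

/-- the functions of the theorem -/
noncomputable def fn {n : ℕ} (p r s b d : ℕ) (e : Sub r s ⊕ Fin r ↪ Fin n) :
    (Fin n → ZMod 2) → Bool := orFun e (pat p r s b d)

theorem fn_lower {n p : ℕ} [Fact p.Prime] (hp2 : p ≠ 2) (r s β d : ℕ) (hpd : d < p)
    (hs : s + 1 = 2 ^ β * (d + 1)) (e : Sub r s ⊕ Fin r ↪ Fin n) (K : ℕ)
    (hK : HasLinearSketch (fn p r s (2 ^ β) d e) K) :
    r.choose s ≤ 3 * (K * r.choose (2 ^ β - 1)) := by
  have h := lower e (pat p r s (2 ^ β) d) indw (fun A => pat_diag r s β d hs hp2 hpd A)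
    (alphaV r s (2 ^ β - 1)) (fun A => alpha_diag r s β d hs A)
    (fun A B hAB h => alpha_off r s β d hs A B hAB h) hK
  rw [card_Sub, card_Sub] at h
  exact h

theorem fn_upper {n p : ℕ} [Fact p.Prime] (hp3 : 3 ≤ p) (r s b d : ℕ)
    (e : Sub r s ⊕ Fin r ↪ Fin n) (c : ℕ) (hc : 2 ^ r * p ^ ((r + 1) ^ d) ≤ 2 ^ c) :
    HasOneWayProtocol (xorFun (fn p r s b d e)) c := by
  refine upper hp3 e (pat p r s b d) (thetaV p r b d) (gV p r s d)
    (fun w A => pat_eq p r s b d w A) c ?_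
  simpa using hc

end Pool.Agent.Lib.MP_b89832_lc
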