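import Pool.Agent.Lib.MP_b89832_lc.Defs

set_option autoImplicit false

/-!
The protocol: `𝔽_p`-linear sketches with public random coefficients.
-/

namespace Pool.Agent.Lib.MP_b89832_lc

open Finset

/-- a protocol with an arbitrary message space of size at most `2^c`, uniform public coins and
error at most `1/3`. -/
theorem hasOneWay_of {X Y Μ Ω : Type} [Fintype Μ] [Fintype Ω] [Nonempty Ω] (F : X → Y → Bool)
    (msg : Ω → X → Μ) (out : Ω → Μ → Y → Bool) (c : ℕ) (hc : Fintype.card Μ ≤ 2 ^ c)
    (h : ∀ x y, 3 * (univ.filter fun ω => out ω (msg ω x) y ≠ F x y).card ≤ Fintype.card Ω) :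
    HasOneWayProtocol F c := by
  classical
  obtain ⟨φ⟩ : Nonempty (Μ ↪ (Fin c → Bool)) := by
    apply Function.Embedding.nonempty_of_card_le
    simpa using hc
  rcases isEmpty_or_nonempty X with hX | hX
  · exact ⟨Ω, inferInstance, fun _ => 1 / Fintype.card Ω, fun _ x => (hX.false x).elim,
      fun _ _ _ => true, fun _ => by positivity, by
        rw [Finset.sum_const, Finset.card_univ, nsmul_eq_mul]
        have : (Fintype.card Ω : ℝ) ≠ 0 := by exact_mod_cast Fintype.card_ne_zero
        field_simp, fun x => (hX.false x).elim⟩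
  have hM : Nonempty Μ := ⟨msg (Classical.arbitrary Ω) (Classical.arbitrary X)⟩
  have hΩ : (0 : ℝ) < Fintype.card Ω := by exact_mod_cast Fintype.card_pos
  refine ⟨Ω, inferInstance, fun _ => 1 / Fintype.card Ω, fun ω x => φ (msg ω x),
    fun ω m y => out ω (Function.invFun φ m) y, fun _ => by positivity, ?_, fun x y => ?_⟩
  · rw [Finset.sum_const, Finset.card_univ, nsmul_eq_mul]
    field_simp
  · have hinv : ∀ ω, Function.invFun φ (φ (msg ω x)) = msg ω x := fun ω =>
      Function.leftInverse_invFun φ.injective (msg ω x)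
    simp only [hinv]
    rw [Finset.sum_const, nsmul_eq_mul]
    have h1 := h x y
    have h2 := Finset.card_filter_add_card_filter_not
      (s := (univ : Finset Ω)) (p := fun ω => out ω (msg ω x) y = F x y)
    rw [Finset.card_univ] at h2
    have h3 : (2 : ℝ) * Fintype.card Ω ≤
        3 * (univ.filter fun ω => out ω (msg ω x) y = F x y).card := by
      have : 2 * Fintype.card Ω ≤
        3 * (univ.filter fun ω => out ω (msg ω x) y = F x y).card := by
          have h1' : 3 * (univ.filter fun ω => ¬ out ω (msg ω x) y = F x y).card ≤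
            Fintype.card Ω := h1
          omega
      exact_mod_cast this
    rw [mul_one_div, le_div_iff₀ hΩ]
    linarith

/-- a nonzero linear form over `𝔽_p` vanishes at at most a `1/p` fraction of the points -/
theorem card_zeros {p : ℕ} [Fact p.Prime] {ι : Type} [Fintype ι] [DecidableEq ι] (c : ι → ZMod p)
    (hc : ∃ i, c i ≠ 0) :
    p * (univ.filter fun ρ : ι → ZMod p => ∑ i, ρ i * c i = 0).card ≤
      Fintype.card (ι → ZMod p) := by
  classical
  obtain ⟨i₀, h0⟩ := hc
  have hinj : ((univ : Finset (ZMod p)) ×ˢ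
      (univ.filter fun ρ : ι → ZMod p => ∑ i, ρ i * c i = 0)).card ≤
      (univ : Finset (ι → ZMod p)).card := by
    refine Finset.card_le_card_of_injOn (fun q => q.2 + Pi.single i₀ q.1) ?_ ?_
    · intro q _; exact Finset.mem_coe.2 (Finset.mem_univ _)
    · rintro ⟨a, ρ⟩ h1 ⟨b, τ⟩ h2 heq
      rw [Finset.mem_coe, Finset.mem_product, Finset.mem_filter] at h1 h2
      simp only at heq h1 h2
      have h3 : ∀ (ρ : ι → ZMod p) (a : ZMod p),
          ∑ i, (ρ + (Pi.single i₀ a : ι → ZMod p)) i * c i = ∑ i, ρ i * c i + a * c i₀ := by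
        intro ρ a
        simp only [Pi.add_apply, add_mul, Finset.sum_add_distrib]
        congr 1
        rw [Finset.sum_eq_single i₀]
        · simp
        · intro j _ hj; simp [Pi.single_eq_of_ne hj]
        · intro h; exact (h (Finset.mem_univ _)).elim
      have h4 : ∑ i, (ρ + (Pi.single i₀ a : ι → ZMod p)) i * c i =
          ∑ i, (τ + (Pi.single i₀ b : ι → ZMod p)) i * c i :=
        congrArg (fun v : ι → ZMod p => ∑ i, v i * c i) heq
      rw [h3, h3, h1.2.2, h2.2.2, zero_add, zero_add] at h4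
      have h5 : a = b := mul_right_cancel₀ h0 h4
      subst h5
      have h6 : ρ = τ := add_right_cancel heq
      rw [h6]
  rw [Finset.card_product, Finset.card_univ, Finset.card_univ, ZMod.card] at hinj
  exact hinj

/-- the lift `{0,1} → 𝔽_p` -/
def lft (p : ℕ) (a : ZMod 2) : ZMod p := if a = 0 then 0 else 1

theorem lft_sub_ne_zero {p : ℕ} [Fact p.Prime] (a b : ZMod 2) :
    lft p a - lft p b ≠ 0 ↔ a + b ≠ 0 := by
  have hp : (1 : ZMod p) ≠ 0 := one_ne_zero
  have : a = 0 ∨ a = 1 := by revert a; decide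
  have : b = 0 ∨ b = 1 := by revert b; decide
  rcases ‹a = 0 ∨ a = 1› with rfl | rfl <;> rcases ‹b = 0 ∨ b = 1› with rfl | rfl
  · simp [lft]
  · simp [lft]
  · simp [lft]
  · simp only [lft, one_ne_zero, if_false, sub_self, ne_eq, not_true_eq_false, false_iff, not_not]
    decide

/-- The functions: coordinates `z_i`, `i ∈ ι`, and `w ∈ {0,1}^r`, the rest of the coordinates is
not used. `f(z, w) = 1` iff `z_i = 1` and `M w i ≠ 0` for some `i`. -/
noncomputable def orFun {n p r : ℕ} {ι : Type} (e : ι ⊕ Fin r ↪ Fin n)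
    (M : (Fin r → ZMod 2) → ι → ZMod p) : (Fin n → ZMod 2) → Bool :=
  open Classical in
  fun x => decide (∃ i, x (e (Sum.inl i)) ≠ 0 ∧ M (fun l => x (e (Sum.inr l))) i ≠ 0)

theorem upper {n p r : ℕ} [Fact p.Prime] (hp3 : 3 ≤ p) {ι υ : Type} [Fintype ι] [DecidableEq ι]
    [Fintype υ] [DecidableEq υ] (e : ι ⊕ Fin r ↪ Fin n) (M : (Fin r → ZMod 2) → ι → ZMod p)
    (θ : (Fin r → ZMod 2) → υ → ZMod p) (g : ι → υ → ZMod p)
    (hM : ∀ w i, M w i = ∑ u, θ w u * g i u) (c : ℕ) (hc : 2 ^ r * p ^ Fintype.card υ ≤ 2 ^ c) :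
    HasOneWayProtocol (xorFun (orFun e M)) c := by
  classical
  refine hasOneWay_of (Μ := (Fin r → ZMod 2) × (υ → ZMod p)) (Ω := ι → ZMod p) _
    (fun ρ x => (fun l => x (e (Sum.inr l)),
      fun u => ∑ i, ρ i * (lft p (x (e (Sum.inl i))) * g i u)))
    (fun ρ m y => decide (∑ u, θ (fun l => m.1 l + y (e (Sum.inr l))) u *
      (m.2 u - ∑ i, ρ i * (lft p (y (e (Sum.inl i))) * g i u)) ≠ 0)) c ?_ ?_
  · simpa using hc
  · intro x y
    obtain ⟨w, hw⟩ : ∃ w : Fin r → ZMod 2, w = fun l => x (e (Sum.inr l)) + y (e (Sum.inr l)) :=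
      ⟨_, rfl⟩
    obtain ⟨cc, hcc⟩ : ∃ cc : ι → ZMod p, cc = fun i =>
        (lft p (x (e (Sum.inl i))) - lft p (y (e (Sum.inl i)))) * M w i := ⟨_, rfl⟩
    have key : ∀ ρ : ι → ZMod p, ∑ u, θ w u *
        ((∑ i, ρ i * (lft p (x (e (Sum.inl i))) * g i u)) -
          ∑ i, ρ i * (lft p (y (e (Sum.inl i))) * g i u)) = ∑ i, ρ i * cc i := by
      intro ρ
      simp only [hcc, hM, Finset.mul_sum]
      rw [Finset.sum_comm]
      refine Finset.sum_congr rfl fun u _ => ?_
      rw [← Finset.sum_sub_distrib, Finset.mul_sum]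
      refine Finset.sum_congr rfl fun i _ => ?_
      ring
    simp only [← hw, key]
    have hF : xorFun (orFun e M) x y = decide (∃ i, cc i ≠ 0) := by
      unfold xorFun orFun
      rw [decide_eq_decide]
      refine exists_congr fun i => ?_
      simp only [hcc, ne_eq, mul_eq_zero, not_or, hw]
      refine and_congr ?_ Iff.rfl
      exact (lft_sub_ne_zero _ _).symm
    rw [hF]
    by_cases h : ∃ i, cc i ≠ 0
    · have h1 := card_zeros cc h
      have h2 : (univ.filter fun ρ : ι → ZMod p =>
          decide (∑ i, ρ i * cc i ≠ 0) ≠ decide (∃ i, cc i ≠ 0)) =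
          univ.filter fun ρ : ι → ZMod p => ∑ i, ρ i * cc i = 0 := by
        refine Finset.filter_congr fun ρ _ => ?_
        rw [decide_eq_true h]
        simp
      rw [h2]
      exact (Nat.mul_le_mul_right _ hp3).trans h1
    · have h2 : (univ.filter fun ρ : ι → ZMod p =>
          decide (∑ i, ρ i * cc i ≠ 0) ≠ decide (∃ i, cc i ≠ 0)) = ∅ := by
        rw [Finset.filter_eq_empty_iff]
        intro ρ _
        rw [decide_eq_false h]
        push Not at h
        simp [h]
      rw [h2]
      simp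

end Pool.Agent.Lib.MP_b89832_lc
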